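import Pool.Agent.H78.LR.Main

/-!
# MP_3d4eef_ag: quartic forms over function fields of real curves without real points

Let `K` be a field containing `ℝ`, of transcendence degree at most one over `ℝ`, in which `-1` is
a sum of squares. Every quartic form over `K` in at least `723` variables has a nontrivial zero.
-/

namespace Pool.Agent.Results.MP_3d4eef_ag.QuarticForms

open MvPolynomial Pool.Agent.H78.LR

theorem result {K : Type*} [Field K] [Algebra ℝ K] (htr : Algebra.trdeg ℝ K ≤ 1)
    (hs : IsSumSq (-1 : K)) (n : ℕ) (hn : 723 ≤ n) (f : MvPolynomial (Fin n) K)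
    (hf : f.IsHomogeneous 4) : ∃ x : Fin n → K, x ≠ 0 ∧ eval x f = 0 :=
  (weak_lang_curves htr hs).2 n hn f hf

end Pool.Agent.Results.MP_3d4eef_ag.QuarticForms
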