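import Pool.Agent.H78.WL.Main

/-!
# MP_3d4eef_ag: weak Lang conjecture in all dimensions and all degrees

For all `i`, `d`, `r`, `t` there is `N` such that over every field `K` containing `ℝ`, of
transcendence degree at most `i` over `ℝ`, in which `-1` is a sum of squares (for example the
function field of a real variety of dimension `i` without real points), every system of `r` forms
of degrees between `1` and `d` in `n ≥ N` variables vanishes on a `K`-linear subspace of `K^n` of
dimension at least `t`; in particular (`t = 1`) it has a nontrivial zero.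
-/

namespace Pool.Agent.Results.MP_3d4eef_ag.WeakLangAllDim

open MvPolynomial

universe u

theorem result (i d r t : ℕ) : ∃ N : ℕ, ∀ (K : Type u) [Field K] [Algebra ℝ K],
    Algebra.trdeg ℝ K ≤ i → IsSumSq (-1 : K) →
    ∀ n : ℕ, N ≤ n → ∀ f : Fin r → MvPolynomial (Fin n) K,
    (∀ j, ∃ e, 1 ≤ e ∧ e ≤ d ∧ (f j).IsHomogeneous e) →
    ∃ U : Submodule K (Fin n → K), t ≤ Module.finrank K U ∧ ∀ x ∈ U, ∀ j, eval x (f j) = 0 :=
  Pool.Agent.H78.WL.weak_lang_all i d r t

end Pool.Agent.Results.MP_3d4eef_ag.WeakLangAllDim
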