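import Pool.Agent.H78.LR.Main

/-!
# MP_3d4eef_ag: weak Lang conjecture for curves, all degrees

Let `K` be a field containing `ℝ`, of transcendence degree at most one over `ℝ`, in which `-1` is
a sum of squares (for example the function field of a real curve without real points). Every
system of `r` forms over `K` of degrees between `1` and `d` in at least `T r d` variables has a
nontrivial zero in `K`.
-/

namespace Pool.Agent.Results.MP_3d4eef_ag.WeakLangCurves

open MvPolynomial Pool.Agent.H78.LR

theorem result {K : Type*} [Field K] [Algebra ℝ K] (htr : Algebra.trdeg ℝ K ≤ 1)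
    (hs : IsSumSq (-1 : K)) (r d n : ℕ) (hn : T r d ≤ n)
    (f : Fin r → MvPolynomial (Fin n) K)
    (hf : ∀ j, ∃ e, 1 ≤ e ∧ e ≤ d ∧ (f j).IsHomogeneous e) :
    ∃ x : Fin n → K, x ≠ 0 ∧ ∀ j, eval x (f j) = 0 :=
  (weak_lang_curves htr hs).1 r d n hn f hf

end Pool.Agent.Results.MP_3d4eef_ag.WeakLangCurves
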